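import Pool.Agent.W761.CP.Defs

set_option autoImplicit false

namespace Pool.Agent.W236.CP

open Pool.Agent.W761.CP

theorem finrank_sup_le {V : Type} [AddCommGroup V] [Module ℂ V] [FiniteDimensional ℂ V]
    (W : ℂ → Submodule ℂ V) (S : Finset ℂ) :
    Module.finrank ℂ (S.sup W : Submodule ℂ V) ≤ ∑ E ∈ S, Module.finrank ℂ (W E) := by
  classical
  induction S using Finset.induction_on with
  | empty => simp
  | insert a S ha ih =>
    rw [Finset.sup_insert, Finset.sum_insert ha]
    exact (Submodule.finrank_add_le_finrank_add_finrank _ _).trans (Nat.add_le_add_left ih _)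

theorem mem_roots_of_ne_bot {n : ℕ} (A : Matrix (Fin n) (Fin n) ℂ) (μ : ℂ)
    (h : Module.End.maxGenEigenspace (Matrix.toLin' A) μ ≠ ⊥) : μ ∈ A.charpoly.roots := by
  have h1 : Module.End.HasUnifEigenvalue (Matrix.toLin' A) μ ⊤ := h
  rw [Module.End.hasUnifEigenvalue_iff_hasUnifEigenvalue_one (by simp)] at h1
  have h2 : Module.End.HasEigenvalue (Matrix.toLin' A) μ := h1
  rw [Module.End.hasEigenvalue_iff_mem_spectrum, Matrix.spectrum_toLin',
    Matrix.mem_spectrum_iff_isRoot_charpoly] at h2
  exact (Polynomial.mem_roots A.charpoly_monic.ne_zero).2 h2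

theorem cnt : S_CNT := by
  classical
  intro X _ _ R G D _ hG hfin n u A hu hR hD
  set a := Matrix.toLin' A with ha
  let φ : (Fin n → ℂ) →ₗ[ℂ] X := Fintype.linearCombination ℂ u
  have hφ : ∀ c, φ c = ∑ j, c j • u j := fun c => Fintype.linearCombination_apply ℂ u c
  have hφi : Function.Injective φ := hu.fintypeLinearCombination_injective
  have hmem : ∀ c, (φ c, φ (a c)) ∈ R := by
    intro c
    have h1 : (φ c, φ (a c)) = ∑ j, c j • ((u j, ∑ l, A l j • u l) : X × X) := by
      apply Prod.ext
      · simp only [hφ, Prod.fst_sum, Prod.smul_fst]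
      · have e1 : (∑ j, c j • ((u j, ∑ l, A l j • u l) : X × X)).2 =
            ∑ j, ∑ l, c j • A l j • u l := by
          simp only [Prod.snd_sum, Prod.smul_snd, Finset.smul_sum]
        rw [e1, Finset.sum_comm]
        change φ (a c) = _
        rw [hφ]
        apply Finset.sum_congr rfl
        intro l _
        rw [ha, Matrix.toLin'_apply, Matrix.mulVec, dotProduct, Finset.sum_smul]
        apply Finset.sum_congr rfl
        intro j _
        rw [smul_smul, mul_comm]
    rw [h1]
    exact Submodule.sum_mem _ fun j _ => Submodule.smul_mem _ _ (hR j)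
  have hsub : ∀ E, ∀ v ∈ Module.End.maxGenEigenspace a E, φ v ∈ G E := by
    intro E v hv
    rw [Module.End.mem_maxGenEigenspace] at hv
    obtain ⟨k, hk⟩ := hv
    rw [hG]
    refine ⟨k, fun i => φ (((a - E • (1 : Module.End ℂ (Fin n → ℂ))) ^ i) v), by simp, by
      simp only; rw [hk, map_zero], fun i _ => ?_⟩
    simp only
    have h1 := hmem (((a - E • (1 : Module.End ℂ (Fin n → ℂ))) ^ i) v)
    have h2 : φ (((a - E • (1 : Module.End ℂ (Fin n → ℂ))) ^ (i + 1)) v) +
        E • φ (((a - E • (1 : Module.End ℂ (Fin n → ℂ))) ^ i) v) =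
        φ (a (((a - E • (1 : Module.End ℂ (Fin n → ℂ))) ^ i) v)) := by
      rw [pow_succ', Module.End.mul_apply, LinearMap.sub_apply, map_sub, LinearMap.smul_apply,
        Module.End.one_apply, map_smul, sub_add_cancel]
    rw [h2]
    exact h1
  refine ⟨A.charpoly.roots.toFinset, fun E hE => hD E (Multiset.mem_toFinset.1 hE), ?_⟩
  have htop : (⊤ : Submodule ℂ (Fin n → ℂ)) ≤
      A.charpoly.roots.toFinset.sup (Module.End.maxGenEigenspace a) := by
    rw [← Module.End.iSup_maxGenEigenspace_eq_top a]
    refine iSup_le fun μ => ?_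
    by_cases h : Module.End.maxGenEigenspace a μ = ⊥
    · rw [h]; exact bot_le
    · exact Finset.le_sup (f := Module.End.maxGenEigenspace a)
        (Multiset.mem_toFinset.2 (mem_roots_of_ne_bot A μ h))
  calc n = Module.finrank ℂ (⊤ : Submodule ℂ (Fin n → ℂ)) := by rw [finrank_top]; simp
    _ ≤ Module.finrank ℂ
        (A.charpoly.roots.toFinset.sup (Module.End.maxGenEigenspace a) : Submodule ℂ (Fin n → ℂ)) :=
        Submodule.finrank_mono htop
    _ ≤ ∑ E ∈ A.charpoly.roots.toFinset, Module.finrank ℂ (Module.End.maxGenEigenspace a E) :=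
        finrank_sup_le _ _
    _ ≤ ∑ E ∈ A.charpoly.roots.toFinset, Module.finrank ℂ (G E) := by
        refine Finset.sum_le_sum fun E hE => ?_
        have := hfin E (hD E (Multiset.mem_toFinset.1 hE))
        let ψ : Module.End.maxGenEigenspace a E →ₗ[ℂ] G E :=
          (φ.domRestrict (Module.End.maxGenEigenspace a E)).codRestrict (G E)
            (fun v => hsub E v v.2)
        apply LinearMap.finrank_le_finrank_of_injective (f := ψ)
        intro x y hxy
        apply Subtype.ext
        apply hφi
        exact congrArg Subtype.val hxy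

end Pool.Agent.W236.CP
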